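import Pool.Agent.Work.MP_3a76b1_co.NonInt
import Pool.Agent.Work.MP_3a76b1_co.Final
import Pool.Agent.Work.MP_3a76b1_co.O.Elim

/-!
Every (d,d)-tight graph has a rigid placement in the d-dimensional l^q space, for every
finite q > 1 that is not an even integer or is at least 4^(d-1) + 1.
-/

namespace Pool.Agent.Results.MP_3a76b1_co.AllButSmallEven

open scoped ENNReal

open Pool.Agent.Work.MP_3a76b1_co

theorem result (d : ℕ) (hd : 1 ≤ d) (q : ℝ≥0∞) [Fact (1 ≤ q)] (hq1 : 1 < q) (hq : q ≠ ⊤)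
    (hqn : (∀ n : ℕ, q ≠ (2 * n : ℕ)) ∨ 4 ^ (d - 1) + 1 ≤ q)
    {V : Type*} [Fintype V] (G : SimpleGraph V) [Fintype G.edgeSet]
    (hG : IsTight G d) :
    ∃ p : V → PiLp q (fun _ : Fin d => ℝ), IsRigid G p := by
  classical
  obtain ⟨r, h, t, hadj, hinj, hsp, hsurj⟩ := exists_index G hd hG
  by_cases hnat : ∀ n : ℕ, q ≠ n
  · have hα : ∀ n : ℤ, q.toReal - 1 ≠ n := by
      intro n hn
      have h2 : q.toReal = ((n + 1 : ℤ) : ℝ) := by push_cast; linarith
      have h3 : (0 : ℤ) ≤ n + 1 := by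
        have : (0:ℝ) ≤ ((n + 1 : ℤ) : ℝ) := by rw [← h2]; exact ENNReal.toReal_nonneg
        exact_mod_cast this
      obtain ⟨m, hm⟩ := Int.eq_ofNat_of_zero_le h3
      apply hnat m
      rw [hm] at h2
      rw [← ENNReal.ofReal_toReal hq, h2]
      simp
    obtain ⟨x, hx1, hx2⟩ := exists_det_ne_zero (q.toReal - 1) hα h t (fun i => (hadj i).ne)
      hinj hsp
    refine ⟨_, rigid_of_det G hq1 hq h t hadj hsurj x ?_ ?_⟩
    · intro i h0
      exact hx1 i ⟨0, hd⟩ (by rw [h0])
    · have : q.toReal - 1 - 1 = q.toReal - 2 := by ring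
      rw [this] at hx2
      exact hx2
  · push Not at hnat
    obtain ⟨m, hm⟩ := hnat
    have hm1 : 1 < m := by
      rw [hm] at hq1
      exact_mod_cast hq1
    obtain ⟨a, rfl⟩ : ∃ a, m = a + 2 := ⟨m - 2, by omega⟩
    have hex : ∃ x : V → Fin d → ℝ, (∀ i k, x (h i) k ≠ x (t i) k) ∧
        (Mat h t (fun i k => |x (h i) k - x (t i) k| ^ (a + 1 - 1) *
          (x (h i) k - x (t i) k))).det ≠ 0 := by
      rcases hqn with hodd | hbig
      · have ha : Even (a + 1) := by
          rcases Nat.even_or_odd (a + 2) with h1 | h1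
          · exfalso
            obtain ⟨n, hn⟩ := h1
            apply hodd n
            rw [hm, hn]
            congr 1
            ring
          · obtain ⟨n, hn⟩ := h1
            exact ⟨n, by omega⟩
        exact exists_det_ne_zero_even ha (by
          obtain ⟨n, hn⟩ := ha
          omega) h t (fun i => (hadj i).ne) hinj hsp
      · have hm' : 4 ^ (d - 1) + 1 ≤ a + 2 := by
          rw [hm] at hbig
          exact_mod_cast hbig
        exact exists_det_ne_zero_nat (a + 1) (by omega) h t (fun i => (hadj i).ne) hinj hsp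
    obtain ⟨x, hx1, hx2⟩ := hex
    refine ⟨_, rigid_of_det G hq1 hq h t hadj hsurj x ?_ ?_⟩
    · intro i h0
      exact hx1 i ⟨0, hd⟩ (by rw [h0])
    · have h5 : q.toReal - 2 = ((a + 1 - 1 : ℕ) : ℝ) := by
        rw [hm, ENNReal.toReal_natCast]
        push_cast
        simp
      have h6 : (fun i k => |x (h i) k - x (t i) k| ^ (q.toReal - 2) *
          (x (h i) k - x (t i) k)) = (fun i k => |x (h i) k - x (t i) k| ^ (a + 1 - 1) *
          (x (h i) k - x (t i) k)) := by
        funext i k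
        rw [h5, Real.rpow_natCast]
      rw [h6]
      exact hx2

end Pool.Agent.Results.MP_3a76b1_co.AllButSmallEven
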